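import Mathlib

set_option autoImplicit false

namespace H569Ext

/-- product `(a+1)(a+2)...(a+d)` is monotone in `a` -/
theorem asc_mono (d : ℕ) {a b : ℕ} (h : a ≤ b) :
    (a + 1).ascFactorial d ≤ (b + 1).ascFactorial d := by
  induction d with
  | zero => simp
  | succ d ih =>
    rw [Nat.ascFactorial_succ, Nat.ascFactorial_succ]
    exact Nat.mul_le_mul (by omega) ih

theorem asc_two_three (d e : ℕ) :
    3 ^ e * (d + 1).ascFactorial e ≤ 2 ^ e * (2 * d + 1).ascFactorial e ∨ d < e := by
  induction e with
  | zero => left; simp
  | succ e ih =>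
    rcases ih with h | h
    · by_cases hde : d < e + 1
      · right; exact hde
      · left
        rw [Nat.ascFactorial_succ, Nat.ascFactorial_succ, pow_succ, pow_succ]
        have h1 : 3 * (d + 1 + e) ≤ 2 * (2 * d + 1 + e) := by omega
        calc 3 ^ e * 3 * ((d + 1 + e) * (d + 1).ascFactorial e)
            = (3 * (d + 1 + e)) * (3 ^ e * (d + 1).ascFactorial e) := by ring
          _ ≤ (2 * (2 * d + 1 + e)) * (2 ^ e * (2 * d + 1).ascFactorial e) :=
              Nat.mul_le_mul h1 h
          _ = 2 ^ e * 2 * ((2 * d + 1 + e) * (2 * d + 1).ascFactorial e) := by ring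
    · right; omega

theorem pow_three_two {d : ℕ} (hd : 3 ≤ d) : 3 * 2 ^ d ≤ 3 ^ d := by
  induction d, hd using Nat.le_induction with
  | base => norm_num
  | succ d _ ih =>
    rw [pow_succ, pow_succ]
    omega

theorem asc_three {d : ℕ} (hd : 3 ≤ d) :
    3 * (d + 1).ascFactorial d ≤ (2 * d + 1).ascFactorial d := by
  have h := (asc_two_three d d).resolve_right (by omega)
  have h3 := pow_three_two hd
  have h4 : 2 ^ d * (3 * (d + 1).ascFactorial d) ≤ 2 ^ d * (2 * d + 1).ascFactorial d := by
    calc 2 ^ d * (3 * (d + 1).ascFactorial d) = (3 * 2 ^ d) * (d + 1).ascFactorial d := by ring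
      _ ≤ 3 ^ d * (d + 1).ascFactorial d := Nat.mul_le_mul_right _ h3
      _ ≤ _ := h
  exact Nat.le_of_mul_le_mul_left h4 (by positivity)

/-- relation between consecutive products -/
theorem asc_shift (a d : ℕ) :
    (a + 1) * (a + 2).ascFactorial d = (a + 1 + d) * (a + 1).ascFactorial d := by
  have h1 := Nat.succ_ascFactorial (a + 1) d
  -- `n * (n+1).ascFactorial k = (n+k) * n.ascFactorial k`
  simpa using h1

theorem binom_ineq {n d : ℕ} (hd : 3 ≤ d) (h1 : 3 * d + 1 ≤ n) (h2 : n + 1 ≤ 5 * d) :
    n.choose (3 * d) + n.choose d ≤ n.choose (2 * d) := by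
  obtain ⟨m, rfl⟩ : ∃ m, n = 3 * d + m := ⟨n - 3 * d, by omega⟩
  have hm1 : 1 ≤ m := by omega
  have hm2 : m + 1 ≤ 2 * d := by omega
  set X := (3 * d + m).choose (2 * d) with hX
  set Y := (3 * d + m).choose d with hY
  set Z := (3 * d + m).choose (3 * d) with hZ
  have fX : X * (2 * d).factorial * (d + m).factorial = (3 * d + m).factorial := by
    have := Nat.choose_mul_factorial_mul_factorial (n := 3 * d + m) (k := 2 * d) (by omega)
    have e : 3 * d + m - 2 * d = d + m := by omega
    rwa [e] at this
  have fY : Y * d.factorial * (2 * d + m).factorial = (3 * d + m).factorial := by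
    have := Nat.choose_mul_factorial_mul_factorial (n := 3 * d + m) (k := d) (by omega)
    have e : 3 * d + m - d = 2 * d + m := by omega
    rwa [e] at this
  have fZ : Z * (3 * d).factorial * m.factorial = (3 * d + m).factorial := by
    have := Nat.choose_mul_factorial_mul_factorial (n := 3 * d + m) (k := 3 * d) (by omega)
    have e : 3 * d + m - 3 * d = m := by omega
    rwa [e] at this
  have a1 : d.factorial * (d + 1).ascFactorial d = (2 * d).factorial := by
    rw [Nat.factorial_mul_ascFactorial, two_mul]
  have a2 : (d + m).factorial * (d + m + 1).ascFactorial d = (2 * d + m).factorial := by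
    rw [Nat.factorial_mul_ascFactorial]; congr 1; omega
  have a3 : (2 * d).factorial * (2 * d + 1).ascFactorial d = (3 * d).factorial := by
    rw [Nat.factorial_mul_ascFactorial]; congr 1; omega
  have a4 : m.factorial * (m + 1).ascFactorial d = (d + m).factorial := by
    rw [Nat.factorial_mul_ascFactorial]; congr 1; omega
  have rXY : X * (d + 1).ascFactorial d = Y * (d + m + 1).ascFactorial d := by
    have h : (d.factorial * (d + m).factorial) * (X * (d + 1).ascFactorial d) =
        (d.factorial * (d + m).factorial) * (Y * (d + m + 1).ascFactorial d) := by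
      calc _ = X * (d.factorial * (d + 1).ascFactorial d) * (d + m).factorial := by ring
        _ = (3 * d + m).factorial := by rw [a1, fX]
        _ = Y * d.factorial * ((d + m).factorial * (d + m + 1).ascFactorial d) := by
            rw [a2, fY]
        _ = _ := by ring
    exact Nat.eq_of_mul_eq_mul_left (by positivity) h
  have rXZ : X * (m + 1).ascFactorial d = Z * (2 * d + 1).ascFactorial d := by
    have h : (m.factorial * (2 * d).factorial) * (X * (m + 1).ascFactorial d) =
        (m.factorial * (2 * d).factorial) * (Z * (2 * d + 1).ascFactorial d) := by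
      calc _ = X * (2 * d).factorial * (m.factorial * (m + 1).ascFactorial d) := by ring
        _ = (3 * d + m).factorial := by rw [a4, fX]
        _ = Z * ((2 * d).factorial * (2 * d + 1).ascFactorial d) * m.factorial := by
            rw [a3, fZ]
        _ = _ := by ring
    exact Nat.eq_of_mul_eq_mul_left (by positivity) h
  have p1 : 0 < (d + m + 1).ascFactorial d := Nat.ascFactorial_pos _ _
  have p2 : 0 < (2 * d + 1).ascFactorial d := Nat.ascFactorial_pos _ _
  have h3 := asc_three hd
  rcases le_total m d with hmd | hmd
  · -- `Z ≤ X / 3`, `Y ≤ 2 X / 3`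
    have hZ3 : 3 * Z ≤ X := by
      have hmono := asc_mono d hmd
      have : (3 * Z) * (2 * d + 1).ascFactorial d ≤ X * (2 * d + 1).ascFactorial d := by
        calc (3 * Z) * (2 * d + 1).ascFactorial d = 3 * (Z * (2 * d + 1).ascFactorial d) := by ring
          _ = X * (3 * (m + 1).ascFactorial d) := by rw [← rXZ]; ring
          _ ≤ X * (3 * (d + 1).ascFactorial d) := by gcongr
          _ ≤ _ := by gcongr
      exact Nat.le_of_mul_le_mul_right this p2
    have hY3 : 3 * Y ≤ 2 * X := by
      have hmono := asc_mono d (show d + 1 ≤ d + m by omega)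
      have hs := asc_shift d d
      have h5 : 3 * (d + 1).ascFactorial d ≤ 2 * (d + m + 1).ascFactorial d := by
        have h6 : 3 * (d + 1).ascFactorial d ≤ 2 * (d + 2).ascFactorial d := by
          have : (d + 1) * (3 * (d + 1).ascFactorial d) ≤
              (d + 1) * (2 * (d + 2).ascFactorial d) := by
            calc (d + 1) * (3 * (d + 1).ascFactorial d)
                = (3 * (d + 1)) * (d + 1).ascFactorial d := by ring
              _ ≤ (2 * (d + 1 + d)) * (d + 1).ascFactorial d := by
                  apply Nat.mul_le_mul_right; omega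
              _ = 2 * ((d + 1 + d) * (d + 1).ascFactorial d) := by ring
              _ = _ := by rw [← hs]; ring
          exact Nat.le_of_mul_le_mul_left this (by omega)
        exact h6.trans (Nat.mul_le_mul_left 2 hmono)
      have : (3 * Y) * (d + m + 1).ascFactorial d ≤ (2 * X) * (d + m + 1).ascFactorial d := by
        calc (3 * Y) * (d + m + 1).ascFactorial d = 3 * (Y * (d + m + 1).ascFactorial d) := by ring
          _ = X * (3 * (d + 1).ascFactorial d) := by rw [← rXY]; ring
          _ ≤ X * (2 * (d + m + 1).ascFactorial d) := by gcongr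
          _ = _ := by ring
      exact Nat.le_of_mul_le_mul_right this p1
    omega
  · have hY3 : 3 * Y ≤ X := by
      have hmono := asc_mono d (show 2 * d ≤ d + m by omega)
      have : (3 * Y) * (d + m + 1).ascFactorial d ≤ X * (d + m + 1).ascFactorial d := by
        calc (3 * Y) * (d + m + 1).ascFactorial d = 3 * (Y * (d + m + 1).ascFactorial d) := by ring
          _ = X * (3 * (d + 1).ascFactorial d) := by rw [← rXY]; ring
          _ ≤ X * (2 * d + 1).ascFactorial d := by gcongr
          _ ≤ _ := by gcongr
      exact Nat.le_of_mul_le_mul_right this p1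
    have hZ3 : 3 * Z ≤ 2 * X := by
      obtain ⟨c, hc⟩ : ∃ c, 2 * d = c + 1 := ⟨2 * d - 1, by omega⟩
      have hmono := asc_mono d (show m ≤ c by omega)
      have hs := asc_shift c d
      have h5 : 3 * (m + 1).ascFactorial d ≤ 2 * (2 * d + 1).ascFactorial d := by
        have h6 : 3 * (c + 1).ascFactorial d ≤ 2 * (c + 2).ascFactorial d := by
          have : (c + 1) * (3 * (c + 1).ascFactorial d) ≤
              (c + 1) * (2 * (c + 2).ascFactorial d) := by
            calc (c + 1) * (3 * (c + 1).ascFactorial d)
                = (3 * (c + 1)) * (c + 1).ascFactorial d := by ring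
              _ ≤ (2 * (c + 1 + d)) * (c + 1).ascFactorial d := by
                  apply Nat.mul_le_mul_right; omega
              _ = 2 * ((c + 1 + d) * (c + 1).ascFactorial d) := by ring
              _ = _ := by rw [← hs]; ring
          exact Nat.le_of_mul_le_mul_left this (by omega)
        rw [hc]
        exact (Nat.mul_le_mul_left 3 hmono).trans h6
      have : (3 * Z) * (2 * d + 1).ascFactorial d ≤ (2 * X) * (2 * d + 1).ascFactorial d := by
        calc (3 * Z) * (2 * d + 1).ascFactorial d = 3 * (Z * (2 * d + 1).ascFactorial d) := by ring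
          _ = X * (3 * (m + 1).ascFactorial d) := by rw [← rXZ]; ring
          _ ≤ X * (2 * (2 * d + 1).ascFactorial d) := by gcongr
          _ = _ := by ring
      exact Nat.le_of_mul_le_mul_right this p2
    omega

end H569Ext
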