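import Mathlib

set_option autoImplicit false

namespace H569Ext

open Module ExteriorAlgebra

section Comm

variable {K M : Type*} [Field K] [AddCommGroup M] [Module K M]

theorem mul_mem_ext {i j : ℕ} {x y : ExteriorAlgebra K M} (hx : x ∈ ⋀[K]^i M)
    (hy : y ∈ ⋀[K]^j M) : x * y ∈ ⋀[K]^(i + j) M := by
  have h := Submodule.mul_mem_mul hx hy
  change x * y ∈ (LinearMap.range (ι K) : Submodule K (ExteriorAlgebra K M)) ^ (i + j)
  rw [pow_add]
  exact h

theorem one_mem_ext : (1 : ExteriorAlgebra K M) ∈ ⋀[K]^0 M := by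
  change (1 : ExteriorAlgebra K M) ∈
    (LinearMap.range (ι K) : Submodule K (ExteriorAlgebra K M)) ^ 0
  rw [pow_zero]
  exact Submodule.one_le.mp le_rfl

theorem ι_mem_ext (v : M) : ι K v ∈ ⋀[K]^1 M := by
  change ι K v ∈ (LinearMap.range (ι K) : Submodule K (ExteriorAlgebra K M)) ^ 1
  rw [pow_one]
  exact ⟨v, rfl⟩

theorem ι_mul_comm (v : M) {j : ℕ} {y : ExteriorAlgebra K M} (hy : y ∈ ⋀[K]^j M) :
    ι K v * y = ((-1 : K) ^ j) • (y * ι K v) := by
  induction hy using Submodule.pow_induction_on_left' with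
  | algebraMap r => simp [Algebra.commutes]
  | add x y i hx hy h1 h2 => rw [mul_add, h1, h2, add_mul, smul_add]
  | mem_mul m hm i x hx h =>
    obtain ⟨w, rfl⟩ := hm
    have h0 : ι K v * ι K w = - (ι K w * ι K v) := by
      have := ExteriorAlgebra.ι_add_mul_swap (R := K) v w
      exact eq_neg_of_add_eq_zero_left this
    rw [← mul_assoc, h0, neg_mul, mul_assoc, h, mul_smul_comm, pow_succ, mul_assoc]
    rw [mul_neg_one, neg_smul]

theorem graded_comm {i j : ℕ} {x y : ExteriorAlgebra K M} (hx : x ∈ ⋀[K]^i M)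
    (hy : y ∈ ⋀[K]^j M) : x * y = ((-1 : K) ^ (i * j)) • (y * x) := by
  induction hx using Submodule.pow_induction_on_left' with
  | algebraMap r => simp [Algebra.commutes]
  | add x x' i hx hx' h1 h2 => rw [add_mul, h1, h2, mul_add, smul_add]
  | mem_mul m hm i x hx h =>
    obtain ⟨w, rfl⟩ := hm
    rw [mul_assoc, h, mul_smul_comm, ← mul_assoc, ι_mul_comm w hy, smul_mul_assoc, smul_smul,
      ← pow_add, mul_assoc]
    congr 2
    rw [Nat.succ_eq_add_one]; ring

theorem sq_zero [CharZero K] {d : ℕ} (hd : Odd d) {f : ExteriorAlgebra K M}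
    (hf : f ∈ ⋀[K]^d M) : f * f = 0 := by
  have h := graded_comm hf hf
  have h1 : ((-1 : K) ^ (d * d)) = -1 := (hd.mul hd).neg_one_pow
  rw [h1, neg_smul, one_smul] at h
  have h2 : (2 : K) • (f * f) = 0 := by
    rw [two_smul]
    nth_rewrite 1 [h]
    simp
  exact (smul_eq_zero.mp h2).resolve_left (by norm_num)

end Comm

section Euler

variable {K : Type*} [Field K] {n : ℕ}

open CliffordAlgebra in
theorem euler {d : ℕ} {x : ExteriorAlgebra K (Fin n → K)} (hx : x ∈ ⋀[K]^d (Fin n → K)) :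
    ∑ i : Fin n, ExteriorAlgebra.ι K (Pi.single i (1 : K)) *
      (CliffordAlgebra.contractLeft (Q := (0 : QuadraticForm K (Fin n → K)))
        (LinearMap.proj i : (Fin n → K) →ₗ[K] K) x) = (d : K) • x := by
  induction hx using Submodule.pow_induction_on_left' with
  | algebraMap r => simp [CliffordAlgebra.contractLeft_algebraMap]
  | add x y i hx hy h1 h2 =>
    simp only [map_add, mul_add, Finset.sum_add_distrib, smul_add]
    rw [h1, h2]
  | mem_mul m hm k x hx h =>
    obtain ⟨w, rfl⟩ := hm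
    have e1 : ∀ i : Fin n, ExteriorAlgebra.ι K (Pi.single i (1 : K)) *
      (CliffordAlgebra.contractLeft (Q := (0 : QuadraticForm K (Fin n → K)))
        (LinearMap.proj i : (Fin n → K) →ₗ[K] K) (ExteriorAlgebra.ι K w * x)) =
        (w i) • (ExteriorAlgebra.ι K (Pi.single i (1 : K)) * x) +
        ExteriorAlgebra.ι K w * (ExteriorAlgebra.ι K (Pi.single i (1 : K)) *
      (CliffordAlgebra.contractLeft (Q := (0 : QuadraticForm K (Fin n → K)))
        (LinearMap.proj i : (Fin n → K) →ₗ[K] K) x)) := by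
      intro i
      have h0 : ExteriorAlgebra.ι K (Pi.single i (1 : K)) * ExteriorAlgebra.ι K w =
          - (ExteriorAlgebra.ι K w * ExteriorAlgebra.ι K (Pi.single i (1 : K))) :=
        eq_neg_of_add_eq_zero_left (ExteriorAlgebra.ι_add_mul_swap (R := K) _ _)
      have h1 := CliffordAlgebra.contractLeft_ι_mul (Q := (0 : QuadraticForm K (Fin n → K)))
        (d := (LinearMap.proj i : (Fin n → K) →ₗ[K] K)) w x
      have h1' : CliffordAlgebra.contractLeft (Q := (0 : QuadraticForm K (Fin n → K)))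
        (LinearMap.proj i : (Fin n → K) →ₗ[K] K) (ExteriorAlgebra.ι K w * x) = (w i) • x -
          ExteriorAlgebra.ι K w * CliffordAlgebra.contractLeft
            (Q := (0 : QuadraticForm K (Fin n → K)))
            (LinearMap.proj i : (Fin n → K) →ₗ[K] K) x := h1
      rw [h1', mul_sub, mul_smul_comm, ← mul_assoc, h0, neg_mul, sub_neg_eq_add, mul_assoc]
    rw [Finset.sum_congr rfl (fun i _ => e1 i), Finset.sum_add_distrib, ← Finset.mul_sum, h]
    have e2 : ∑ i : Fin n, (w i) • (ExteriorAlgebra.ι K (Pi.single i (1 : K)) * x) =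
        ExteriorAlgebra.ι K w * x := by
      have : w = ∑ i : Fin n, (w i) • (Pi.single i (1 : K) : Fin n → K) := by
        ext j
        simp [Finset.sum_apply, Pi.single_apply]
      conv_rhs => rw [this]
      rw [map_sum, Finset.sum_mul]
      refine Finset.sum_congr rfl fun i _ => ?_
      rw [map_smul, smul_mul_assoc]
    rw [e2, mul_smul_comm, Nat.succ_eq_add_one, Nat.cast_add, Nat.cast_one, add_smul, one_smul,
      add_comm]

theorem exists_ι_mul_ne [CharZero K] {d : ℕ} (hd : d < n) {f : ExteriorAlgebra K (Fin n → K)}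
    (hf : f ∈ ⋀[K]^d (Fin n → K)) (h0 : f ≠ 0) : ∃ v : Fin n → K, ι K v * f ≠ 0 := by
  by_contra hcon
  push Not at hcon
  have hE := euler hf
  have h1 : ∀ i : Fin n, ExteriorAlgebra.ι K (Pi.single i (1 : K)) *
      (CliffordAlgebra.contractLeft (Q := (0 : QuadraticForm K (Fin n → K)))
        (LinearMap.proj i : (Fin n → K) →ₗ[K] K) f) = f := by
    intro i
    have h2 := CliffordAlgebra.contractLeft_ι_mul (Q := (0 : QuadraticForm K (Fin n → K)))
        (d := (LinearMap.proj i : (Fin n → K) →ₗ[K] K)) (Pi.single i (1 : K)) f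
    have h3 : CliffordAlgebra.ι (0 : QuadraticForm K (Fin n → K)) (Pi.single i (1 : K)) * f = 0 :=
      hcon _
    rw [h3, map_zero] at h2
    have h4 : (LinearMap.proj i : (Fin n → K) →ₗ[K] K) (Pi.single i (1 : K)) = 1 := by simp
    rw [h4, one_smul] at h2
    exact (sub_eq_zero.mp h2.symm).symm
  rw [Finset.sum_congr rfl (fun i _ => h1 i)] at hE
  simp only [Finset.sum_const, Finset.card_univ, Fintype.card_fin] at hE
  rw [← Nat.cast_smul_eq_nsmul K, ← sub_eq_zero, ← sub_smul] at hE
  rcases smul_eq_zero.mp hE with h5 | h5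
  · have : (n : K) = (d : K) := sub_eq_zero.mp h5
    have := Nat.cast_injective this
    omega
  · exact h0 h5

theorem exists_mul_ne [CharZero K] {d : ℕ} {f : ExteriorAlgebra K (Fin n → K)}
    (hf : f ∈ ⋀[K]^d (Fin n → K)) (h0 : f ≠ 0) :
    ∀ m : ℕ, m + d ≤ n → ∃ y ∈ ⋀[K]^m (Fin n → K), y * f ≠ 0 := by
  intro m
  induction m with
  | zero =>
    intro _
    exact ⟨1, one_mem_ext, by simpa using h0⟩
  | succ m ih =>
    intro hm
    obtain ⟨y, hy, hyf⟩ := ih (by omega)
    have hmem : y * f ∈ ⋀[K]^(m + d) (Fin n → K) := mul_mem_ext hy hf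
    obtain ⟨v, hv⟩ := exists_ι_mul_ne (by omega : m + d < n) hmem hyf
    refine ⟨ι K v * y, ?_, by rwa [mul_assoc]⟩
    have := mul_mem_ext (ι_mem_ext (K := K) v) hy
    rwa [add_comm] at this

end Euler

end H569Ext
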