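import Mathlib
import Pool.Agent.H569_Ext.Core

set_option autoImplicit false

namespace H569Ext

open Module ExteriorAlgebra

variable {K : Type*} [Field K] {n : ℕ}

theorem finrank_ext (r : ℕ) : finrank K (⋀[K]^r (Fin n → K)) = n.choose r := by
  rw [exteriorPower.finrank_eq, Module.finrank_fin_fun]

/-- Multiplication by an odd form `f` of degree `d` from degree `n - 2 d` is not onto degree
`n - d`: its image is killed by `f`. -/
theorem ann_bound [CharZero K] {d r : ℕ} (hd : Odd d) (hn : r + d + d = n)
    {f : ExteriorAlgebra K (Fin n → K)} (hf : f ∈ ⋀[K]^d (Fin n → K)) :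
    n.choose r + 1 ≤ n.choose (r + d) +
      finrank K ↥(⋀[K]^r (Fin n → K) ⊓ LinearMap.ker (LinearMap.mulRight K f)) := by
  by_cases h0 : f = 0
  · have h1 : LinearMap.ker (LinearMap.mulRight K f) = ⊤ := by
      rw [h0]; ext x; simp
    rw [h1, inf_top_eq, finrank_ext]
    have : 0 < n.choose (r + d) := Nat.choose_pos (by omega)
    omega
  · set P : Submodule K (ExteriorAlgebra K (Fin n → K)) := ⋀[K]^r (Fin n → K) with hP
    set Q : Submodule K (ExteriorAlgebra K (Fin n → K)) := ⋀[K]^(r + d) (Fin n → K) with hQ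
    set φ := (LinearMap.mulRight K f).domRestrict P with hφ
    have hfinP : Module.Finite K P := by rw [hP]; infer_instance
    have hfinQ : Module.Finite K Q := by rw [hQ]; infer_instance
    have hrn := LinearMap.finrank_range_add_finrank_ker φ
    have hPn : finrank K P = n.choose r := finrank_ext r
    have hQn : finrank K Q = n.choose (r + d) := finrank_ext (r + d)
    rw [hPn] at hrn
    have hker : finrank K (LinearMap.ker φ) =
        finrank K ↥(P ⊓ LinearMap.ker (LinearMap.mulRight K f)) := by
      have e1 : (LinearMap.ker φ).map P.subtype = P ⊓ LinearMap.ker (LinearMap.mulRight K f) := by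
        ext x
        simp only [Submodule.mem_map, LinearMap.mem_ker, Submodule.mem_inf, Submodule.subtype_apply,
          hφ, LinearMap.domRestrict_apply]
        constructor
        · rintro ⟨y, hy, rfl⟩
          exact ⟨y.2, hy⟩
        · rintro ⟨hx, hx2⟩
          exact ⟨⟨x, hx⟩, hx2, rfl⟩
      rw [← e1, Submodule.finrank_map_subtype_eq]
    have hlt : Q ⊓ LinearMap.ker (LinearMap.mulRight K f) < Q := by
      refine lt_of_le_of_ne inf_le_left ?_
      intro heq
      obtain ⟨y, hy, hyf⟩ := exists_mul_ne hf h0 (r + d) (by omega)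
      have hy2 : y ∈ Q ⊓ LinearMap.ker (LinearMap.mulRight K f) := by rw [heq]; exact hy
      exact hyf (by simpa using hy2.2)
    have hle : LinearMap.range φ ≤ Q ⊓ LinearMap.ker (LinearMap.mulRight K f) := by
      rintro _ ⟨x, rfl⟩
      refine ⟨?_, ?_⟩
      · simp only [hφ, LinearMap.domRestrict_apply, LinearMap.mulRight_apply]
        exact mul_mem_ext x.2 hf
      · simp only [hφ, LinearMap.domRestrict_apply, LinearMap.mulRight_apply, SetLike.mem_coe]
        rw [LinearMap.mem_ker, LinearMap.mulRight_apply, mul_assoc, sq_zero hd hf, mul_zero]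
    have h1 := Submodule.finrank_lt_finrank_of_lt hlt
    have hfin2 : Module.Finite K ↥(Q ⊓ LinearMap.ker (LinearMap.mulRight K f)) :=
      Submodule.finiteDimensional_inf_left _ _
    have h2 := Submodule.finrank_mono hle
    rw [hker] at hrn
    omega

theorem span_le_range {d : ℕ} {f : ExteriorAlgebra K (Fin n → K)}
    (hf : f ∈ ⋀[K]^d (Fin n → K)) :
    Submodule.span K {x | ∃ a b : ExteriorAlgebra K (Fin n → K), x = a * f * b} ≤
      LinearMap.range (LinearMap.mulRight K f) := by
  rw [Submodule.span_le]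
  rintro _ ⟨a, b, rfl⟩
  have key : ∀ b : ExteriorAlgebra K (Fin n → K), ∃ b', f * b = b' * f := by
    intro b
    induction b using DirectSum.Decomposition.inductionOn fun i => ⋀[K]^i (Fin n → K) with
    | zero => exact ⟨0, by simp⟩
    | add x y hx hy =>
      obtain ⟨x', hx'⟩ := hx
      obtain ⟨y', hy'⟩ := hy
      exact ⟨x' + y', by rw [mul_add, hx', hy', add_mul]⟩
    | homogeneous x =>
      rename_i j
      exact ⟨((-1 : K) ^ (d * j)) • (x : ExteriorAlgebra K (Fin n → K)), by
        rw [graded_comm hf x.2, smul_mul_assoc]⟩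
  obtain ⟨b', hb'⟩ := key b
  exact ⟨a * b', by simp only [LinearMap.mulRight_apply]; rw [mul_assoc, mul_assoc, hb']⟩

theorem ideal_bound {d r : ℕ} (hdr : d ≤ r) {f : ExteriorAlgebra K (Fin n → K)}
    (hf : f ∈ ⋀[K]^d (Fin n → K)) :
    finrank K ↥(⋀[K]^r (Fin n → K) ⊓
      Submodule.span K {x | ∃ a b : ExteriorAlgebra K (Fin n → K), x = a * f * b}) ≤
      n.choose (r - d) := by
  have hle : ⋀[K]^r (Fin n → K) ⊓
      Submodule.span K {x | ∃ a b : ExteriorAlgebra K (Fin n → K), x = a * f * b} ≤
      (⋀[K]^(r - d) (Fin n → K)).map (LinearMap.mulRight K f) := by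
    rintro x ⟨hx, hx2⟩
    obtain ⟨c, hc⟩ := span_le_range hf hx2
    simp only [LinearMap.mulRight_apply] at hc
    have h1 := DirectSum.coe_decompose_mul_of_right_mem_of_le
      (𝒜 := fun i : ℕ ↦ ⋀[K]^i (Fin n → K)) (a := c) (b := f) (n := r) hf hdr
    rw [hc] at h1
    have h2 := DirectSum.decompose_of_mem_same (fun i : ℕ ↦ ⋀[K]^i (Fin n → K)) hx
    rw [h2] at h1
    exact ⟨_, SetLike.coe_mem _, by simp only [LinearMap.mulRight_apply]; exact h1.symm⟩
  have hfin : Module.Finite K ↥((⋀[K]^(r - d) (Fin n → K)).map (LinearMap.mulRight K f)) := by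
    have : Module.Finite K ↥(⋀[K]^(r - d) (Fin n → K)) := inferInstance
    exact Module.Finite.map _ _
  calc _ ≤ finrank K ↥((⋀[K]^(r - d) (Fin n → K)).map (LinearMap.mulRight K f)) :=
        Submodule.finrank_mono hle
    _ ≤ finrank K ↥(⋀[K]^(r - d) (Fin n → K)) := Submodule.finrank_map_le _ _
    _ = _ := finrank_ext _

end H569Ext
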