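import Mathlib
import Pool.Agent.H569_Ext.Core
import Pool.Agent.H569_Ext.Rank
import Pool.Agent.H569_Ext.Binom

set_option autoImplicit false

/-!
# Annihilators of generic odd-degree forms in the exterior algebra

For a form `f` of degree `d` in the exterior algebra of `K^n` let `a` be the Hilbert series of its
annihilator, `p` the Hilbert series of the ideal `(f)` and `Δ` the polynomial with coefficients
`C(n, r) - C(n, r + d)` for `⌈(n - d) / 2⌉ ≤ r ≤ n`. For odd `d > 3` and generic `f` the difference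
`a - max(p, Δ)` is conjectured to be a single monomial for some special pairs `(n, d)` and zero for
all others. We refute this. If `d` is odd then `f ∧ f = 0`, so the image of the multiplication by
`f` from degree `n - 2d` to degree `n - d` lies in the kernel of the nonzero functional
`y ↦ y ∧ f`. Hence the coefficient of `a` in degree `n - 2d` exceeds the one of `Δ`, and for
`3 d + 1 ≤ n ≤ 5 d - 1` the latter is at least the one of `p`. So `a - max(p, Δ)` has a positive
coefficient in degree `n - 2d`, for every form `f` of degree `d`, where the conjecture predicts zero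
unless `(n, d) = (16, 5)`.
-/

namespace H569Ext.ConjectureFalse

open Module

/-- The coefficient of `t^r` in the Hilbert series of the annihilator `{g | g ∧ f = 0}`:
the dimension of its part of degree `r`. -/
noncomputable def annCoeff {K : Type*} [Field K] {n d : ℕ} (f : ⋀[K]^d (Fin n → K)) (r : ℕ) : ℕ :=
  finrank K ↥(⋀[K]^r (Fin n → K) ⊓
    LinearMap.ker (LinearMap.mulRight K (f : ExteriorAlgebra K (Fin n → K))))

/-- The two-sided ideal generated by `f`, as a subspace of the exterior algebra. -/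
def principalIdeal {K : Type*} [Field K] {n d : ℕ} (f : ⋀[K]^d (Fin n → K)) :
    Submodule K (ExteriorAlgebra K (Fin n → K)) :=
  Submodule.span K {x | ∃ a b : ExteriorAlgebra K (Fin n → K), x = a * f * b}

/-- The coefficient of `t^r` in the Hilbert series of the principal ideal `(f)`. -/
noncomputable def idealCoeff {K : Type*} [Field K] {n d : ℕ} (f : ⋀[K]^d (Fin n → K))
    (r : ℕ) : ℕ :=
  finrank K ↥(⋀[K]^r (Fin n → K) ⊓ principalIdeal f)

/-- The coefficient of `t^r` in `Δ_{n,d}(t)`: it is `C(n, r) - C(n, r + d)` for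
`⌈(n - d) / 2⌉ ≤ r ≤ n` and `0` for other `r`. -/
def deltaCoeff (n d r : ℕ) : ℤ :=
  if (n - d + 1) / 2 ≤ r ∧ r ≤ n then (n.choose r : ℤ) - (n.choose (r + d) : ℤ) else 0

/-- The coefficient of `t^r` in `τ = a - max(p, Δ)`, for the form `f`. -/
noncomputable def tauCoeff {K : Type*} [Field K] {n d : ℕ} (f : ⋀[K]^d (Fin n → K))
    (r : ℕ) : ℤ :=
  (annCoeff f r : ℤ) - max (idealCoeff f r : ℤ) (deltaCoeff n d r)

open Classical in
/-- The coefficient of `t^r` in the conjectured value of `τ_{n,d}(t)`: the series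
`t^(v (v + 1) / 2)` if `n - d = (v^2 + 5 v) / 2 - 1` and `d = 5 + 2 v s` for some integers
`v ≥ 1`, `s ≥ 0`, and `0` otherwise. -/
noncomputable def predictedCoeff (n d r : ℕ) : ℤ :=
  if ∃ v s : ℕ, 1 ≤ v ∧ ((n : ℚ) - d = ((v : ℚ) ^ 2 + 5 * v) / 2 - 1) ∧ d = 5 + 2 * v * s ∧
    r = v * (v + 1) / 2 then 1 else 0

/-- The form `f = ∑ c_S x_S` of degree `d` is generic: its coefficients `c_S` in the basis of the
`x_S`, for the subsets `S` of `Fin n` with `d` elements, are pairwise distinct, not rational, and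
algebraically independent over `ℚ`. -/
def IsGeneric {K : Type*} [Field K] [CharZero K] {n d : ℕ} (f : ⋀[K]^d (Fin n → K)) : Prop :=
  Function.Injective (((Pi.basisFun K (Fin n)).exteriorPower d).repr f) ∧
  (∀ S, ((Pi.basisFun K (Fin n)).exteriorPower d).repr f S ∉ Set.range (algebraMap ℚ K)) ∧
  AlgebraicIndependent ℚ (((Pi.basisFun K (Fin n)).exteriorPower d).repr f)

/-- The conjecture for the pair `(n, d)`: over every field of characteristic `0` every generic form
of degree `d` has the conjectured series `τ_{n,d}(t)`. -/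
def ConjectureAt (n d : ℕ) : Prop :=
  ∀ (K : Type) [Field K] [CharZero K] (f : ⋀[K]^d (Fin n → K)), IsGeneric f →
    ∀ r : ℕ, tauCoeff f r = predictedCoeff n d r

/-- The conjecture. -/
def Conjecture : Prop := ∀ n d : ℕ, Odd d → 3 < d → d ≤ n → ConjectureAt n d

theorem exists_generic (n d : ℕ) : ∃ (K : Type) (_ : Field K) (_ : CharZero K)
    (f : ⋀[K]^d (Fin n → K)), IsGeneric f := by
  classical
  let ι := Set.powersetCard (Fin n) d
  let K := FractionRing (MvPolynomial ι ℚ)
  have hch : CharZero K := charZero_of_injective_algebraMap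
    (FaithfulSMul.algebraMap_injective (MvPolynomial ι ℚ) K)
  let c : ι → K := fun S => algebraMap (MvPolynomial ι ℚ) K (MvPolynomial.X S)
  have hc0 := (MvPolynomial.algebraicIndependent_X ι ℚ).map'
    (f := (Algebra.algHom ℚ (MvPolynomial ι ℚ) K))
    (FaithfulSMul.algebraMap_injective (MvPolynomial ι ℚ) K)
  have hc : AlgebraicIndependent ℚ c := by
    convert hc0
    rfl
  refine ⟨K, inferInstance, hch, ((Pi.basisFun K (Fin n)).exteriorPower d).equivFun.symm c, ?_⟩
  have hrepr : (⇑(((Pi.basisFun K (Fin n)).exteriorPower d).repr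
      (((Pi.basisFun K (Fin n)).exteriorPower d).equivFun.symm c)) : ι → K) = c := by
    have := ((Pi.basisFun K (Fin n)).exteriorPower d).equivFun.apply_symm_apply c
    exact this
  unfold IsGeneric
  rw [hrepr]
  refine ⟨hc.injective, ?_, hc⟩
  rintro S ⟨q, hq⟩
  have h1 := hc.transcendental S
  apply h1
  rw [← hq]
  exact isAlgebraic_algebraMap q

theorem tau_pos {K : Type*} [Field K] [CharZero K] {n d : ℕ} (hd : Odd d) (hd3 : 3 < d)
    (h1 : 3 * d + 1 ≤ n) (h2 : n ≤ 5 * d - 1) (f : ⋀[K]^d (Fin n → K)) :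
    1 ≤ tauCoeff f (n - 2 * d) := by
  have ha := H569Ext.ann_bound (K := K) (n := n) (d := d) (r := n - 2 * d) hd (by omega) f.2
  have hp := H569Ext.ideal_bound (K := K) (n := n) (d := d) (r := n - 2 * d) (by omega) f.2
  have hb := H569Ext.binom_ineq (n := n) (d := d) (by omega) h1 (by omega)
  have e1 : n.choose (n - 2 * d - d) = n.choose (3 * d) := by
    rw [← Nat.choose_symm (show 3 * d ≤ n by omega)]
    congr 1; omega
  have e2 : n.choose (n - 2 * d) = n.choose (2 * d) := Nat.choose_symm (by omega)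
  have e3 : n.choose (n - 2 * d + d) = n.choose d := by
    rw [← Nat.choose_symm (show d ≤ n by omega)]
    congr 1; omega
  rw [e1] at hp
  rw [e2, e3] at ha
  have hD : deltaCoeff n d (n - 2 * d) = (n.choose (2 * d) : ℤ) - (n.choose d : ℤ) := by
    unfold deltaCoeff
    rw [if_pos ⟨by omega, by omega⟩, e2, e3]
  have ha' : n.choose (2 * d) + 1 ≤ n.choose d + annCoeff f (n - 2 * d) := ha
  have hp' : idealCoeff f (n - 2 * d) ≤ n.choose (3 * d) := hp
  unfold tauCoeff
  rw [hD]
  have hm : max (idealCoeff f (n - 2 * d) : ℤ) ((n.choose (2 * d) : ℤ) - (n.choose d : ℤ)) =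
      (n.choose (2 * d) : ℤ) - (n.choose d : ℤ) := by
    apply max_eq_right
    have : (idealCoeff f (n - 2 * d) : ℤ) ≤ (n.choose (3 * d) : ℤ) := by exact_mod_cast hp'
    have h5 : ((n.choose (3 * d) : ℤ)) + (n.choose d : ℤ) ≤ (n.choose (2 * d) : ℤ) := by
      exact_mod_cast hb
    linarith
  rw [hm]
  have h6 : ((n.choose (2 * d) : ℤ)) + 1 ≤ (n.choose d : ℤ) + (annCoeff f (n - 2 * d) : ℤ) := by
    exact_mod_cast ha'
  linarith

theorem predicted_zero {n d : ℕ} (hd3 : 3 < d) (h1 : 3 * d + 1 ≤ n)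
    (hne : ¬ (n = 16 ∧ d = 5)) : predictedCoeff n d (n - 2 * d) = 0 := by
  unfold predictedCoeff
  rw [if_neg]
  rintro ⟨v, s, hv, hq, hds, hr⟩
  have hr2 : 2 * (n - 2 * d) = v * (v + 1) := by
    have : 2 ∣ v * (v + 1) := (Nat.even_mul_succ_self v).two_dvd
    omega
  have hz : (2 : ℤ) * n - 2 * d = (v : ℤ) ^ 2 + 5 * v - 2 := by
    have : (2 : ℚ) * n - 2 * d = (v : ℚ) ^ 2 + 5 * v - 2 := by linarith
    exact_mod_cast this
  have hz2 : 2 * ((n : ℤ) - 2 * d) = (v : ℤ) * (v + 1) := by
    have : ((2 * (n - 2 * d) : ℕ) : ℤ) = ((v * (v + 1) : ℕ) : ℤ) := by rw [hr2]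
    rw [Nat.cast_mul, Nat.cast_sub (by omega)] at this
    push_cast at this
    linarith
  -- `2 d = 4 v - 2`
  have h3 : (d : ℤ) = 2 * v - 1 := by nlinarith
  have h4 : d + 1 = 2 * v := by omega
  have hs : s = 0 := by
    by_contra hs0
    have : 1 ≤ s := Nat.one_le_iff_ne_zero.mpr hs0
    have : 2 * v * 1 ≤ 2 * v * s := Nat.mul_le_mul_left _ this
    omega
  subst hs
  have hd5 : d = 5 := by omega
  have hv3 : v = 3 := by omega
  subst hd5 hv3
  apply hne
  refine ⟨?_, rfl⟩
  norm_num at hr2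
  omega

/-- For odd `d > 3` and `3 d + 1 ≤ n ≤ 5 d - 1` the series `τ` of every form of degree `d` has a
positive coefficient in degree `n - 2 d`, where the conjecture predicts `0` unless
`(n, d) = (16, 5)`; so the conjecture fails for every other such pair. -/
theorem result :
    (∀ n d : ℕ, Odd d → 3 < d → 3 * d + 1 ≤ n → n ≤ 5 * d - 1 →
      (∀ (K : Type) [Field K] [CharZero K] (f : ⋀[K]^d (Fin n → K)),
        1 ≤ tauCoeff f (n - 2 * d)) ∧
      (∃ (K : Type) (_ : Field K) (_ : CharZero K) (f : ⋀[K]^d (Fin n → K)), IsGeneric f) ∧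
      (¬ (n = 16 ∧ d = 5) → predictedCoeff n d (n - 2 * d) = 0 ∧ ¬ ConjectureAt n d)) ∧
    ¬ Conjecture := by
  have main : ∀ n d : ℕ, Odd d → 3 < d → 3 * d + 1 ≤ n → n ≤ 5 * d - 1 →
      (∀ (K : Type) [Field K] [CharZero K] (f : ⋀[K]^d (Fin n → K)),
        1 ≤ tauCoeff f (n - 2 * d)) ∧
      (∃ (K : Type) (_ : Field K) (_ : CharZero K) (f : ⋀[K]^d (Fin n → K)), IsGeneric f) ∧
      (¬ (n = 16 ∧ d = 5) → predictedCoeff n d (n - 2 * d) = 0 ∧ ¬ ConjectureAt n d) := by
    intro n d hd hd3 h1 h2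
    refine ⟨fun K _ _ f => tau_pos hd hd3 h1 h2 f, exists_generic n d, fun hne => ?_⟩
    have hz := predicted_zero hd3 h1 hne
    refine ⟨hz, fun hC => ?_⟩
    obtain ⟨K, i1, i2, f, hf⟩ := exists_generic n d
    have h3 := hC K f hf (n - 2 * d)
    have h4 := tau_pos hd hd3 h1 h2 f
    rw [h3, hz] at h4
    exact absurd h4 (by norm_num)
  refine ⟨main, fun hC => ?_⟩
  exact ((main 17 5 (by decide) (by norm_num) (by norm_num) (by norm_num)).2.2 (by norm_num)).2
    (hC 17 5 (by decide) (by norm_num) (by norm_num))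

end H569Ext.ConjectureFalse
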